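import Mathlib

set_option autoImplicit false
set_option linter.unusedSectionVars false

namespace Run7.h328

open Finset
open scoped Classical

section

variable {V : Type*} [Fintype V]

/-- every independent set of `G` has at most `a` vertices -/
def IndLe (G : SimpleGraph V) (a : ℝ) : Prop :=
  ∀ S : Finset V, (∀ x ∈ S, ∀ y ∈ S, ¬ G.Adj x y) → (S.card : ℝ) ≤ a

theorem caro_wei (G : SimpleGraph V) : ∀ (k : ℕ) (S : Finset V), S.card ≤ k →
    ∃ T ⊆ S, (∀ x ∈ T, ∀ y ∈ T, ¬ G.Adj x y) ∧
      ∑ v ∈ S, (1 : ℝ) / (((S.filter (G.Adj v)).card : ℝ) + 1) ≤ T.card := by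
  intro k
  induction k with
  | zero =>
    intro S hS
    have : S = ∅ := by simpa using hS
    subst this
    exact ⟨∅, by simp, by simp, by simp⟩
  | succ k ih =>
    intro S hS
    by_cases hne : S.Nonempty
    · obtain ⟨v, hvS, hv⟩ := Finset.exists_min_image S (fun v => (S.filter (G.Adj v)).card) hne
      set S' := S.filter (fun u => u ≠ v ∧ ¬ G.Adj v u) with hS'
      have hsub : S' ⊆ S := Finset.filter_subset _ _
      have hlt : S'.card < S.card := by
        apply Finset.card_lt_card
        refine ⟨hsub, fun h => ?_⟩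
        have := h hvS
        simp [hS'] at this
      obtain ⟨T, hTS, hTi, hT⟩ := ih S' (by omega)
      refine ⟨insert v T, ?_, ?_, ?_⟩
      · intro x hx
        rcases Finset.mem_insert.1 hx with rfl | hx
        · exact hvS
        · exact hsub (hTS hx)
      · intro x hx y hy
        rcases Finset.mem_insert.1 hx with rfl | hx' <;> rcases Finset.mem_insert.1 hy with rfl | hy'
        · exact G.loopless.irrefl _
        · have := hTS hy'
          simp only [hS', Finset.mem_filter] at this
          exact this.2.2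
        · have := hTS hx'
          simp only [hS', Finset.mem_filter] at this
          exact fun h => this.2.2 h.symm
        · exact hTi x hx' y hy'
      · have hvT : v ∉ T := by
          intro h
          have := hTS h
          simp [hS'] at this
        rw [Finset.card_insert_of_notMem hvT]
        have hsplit : ∑ u ∈ S, (1 : ℝ) / (((S.filter (G.Adj u)).card : ℝ) + 1)
            = ∑ u ∈ S', (1 : ℝ) / (((S.filter (G.Adj u)).card : ℝ) + 1)
              + ∑ u ∈ S \ S', (1 : ℝ) / (((S.filter (G.Adj u)).card : ℝ) + 1) := by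
          rw [add_comm, Finset.sum_sdiff hsub]
        rw [hsplit]
        have h1 : ∑ u ∈ S', (1 : ℝ) / (((S.filter (G.Adj u)).card : ℝ) + 1)
            ≤ ∑ u ∈ S', (1 : ℝ) / (((S'.filter (G.Adj u)).card : ℝ) + 1) := by
          apply Finset.sum_le_sum
          intro u _
          apply one_div_le_one_div_of_le
          · positivity
          · have : (S'.filter (G.Adj u)).card ≤ (S.filter (G.Adj u)).card :=
              Finset.card_le_card (Finset.filter_subset_filter _ hsub)
            have : ((S'.filter (G.Adj u)).card : ℝ) ≤ (S.filter (G.Adj u)).card := by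
              exact_mod_cast this
            linarith
        have h2 : ∑ u ∈ S \ S', (1 : ℝ) / (((S.filter (G.Adj u)).card : ℝ) + 1) ≤ 1 := by
          have hle : ∀ u ∈ S \ S', (1 : ℝ) / (((S.filter (G.Adj u)).card : ℝ) + 1)
              ≤ 1 / (((S.filter (G.Adj v)).card : ℝ) + 1) := by
            intro u hu
            apply one_div_le_one_div_of_le
            · positivity
            · have := hv u (Finset.mem_sdiff.1 hu).1
              have : ((S.filter (G.Adj v)).card : ℝ) ≤ (S.filter (G.Adj u)).card := by
                exact_mod_cast this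
              linarith
          refine (Finset.sum_le_sum hle).trans ?_
          rw [Finset.sum_const, nsmul_eq_mul]
          have hc : (S \ S').card ≤ (S.filter (G.Adj v)).card + 1 := by
            have : S \ S' ⊆ insert v (S.filter (G.Adj v)) := by
              intro u hu
              simp only [hS', Finset.mem_sdiff, Finset.mem_filter, not_and, not_not] at hu
              simp only [Finset.mem_insert, Finset.mem_filter]
              by_cases huv : u = v
              · exact Or.inl huv
              · exact Or.inr ⟨hu.1, hu.2 hu.1 huv⟩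
            exact (Finset.card_le_card this).trans (Finset.card_insert_le _ _)
          have hc' : ((S \ S').card : ℝ) ≤ (S.filter (G.Adj v)).card + 1 := by exact_mod_cast hc
          have hpos : (0 : ℝ) < ((S.filter (G.Adj v)).card : ℝ) + 1 := by positivity
          rw [mul_one_div, div_le_one hpos]
          exact hc'
        push_cast
        linarith
    · have : S = ∅ := Finset.not_nonempty_iff_eq_empty.1 hne
      subst this
      exact ⟨∅, by simp, by simp, by simp⟩

/-- Turan's theorem in the form needed here. -/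
theorem turan (G : SimpleGraph V) (a : ℝ) (h : IndLe G a) (S : Finset V) :
    (S.card : ℝ) ^ 2 ≤ a * (∑ v ∈ S, ((S.filter (G.Adj v)).card : ℝ) + S.card) := by
  obtain ⟨T, _, hTi, hT⟩ := caro_wei G S.card S le_rfl
  have hTa := h T hTi
  have hcs := Finset.sum_sq_le_sum_mul_sum_of_sq_le_mul S
    (r := fun _ => (1 : ℝ))
    (f := fun v => ((S.filter (G.Adj v)).card : ℝ) + 1)
    (g := fun v => (1 : ℝ) / (((S.filter (G.Adj v)).card : ℝ) + 1))
    (fun v _ => by positivity) (fun v _ => by positivity)
    (fun v _ => by
      have : ((S.filter (G.Adj v)).card : ℝ) + 1 ≠ 0 := by positivity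
      refine le_of_eq ?_
      field_simp)
  simp only [Finset.sum_const, nsmul_eq_mul, mul_one] at hcs
  have h1 : ∑ v ∈ S, (((S.filter (G.Adj v)).card : ℝ) + 1)
      = ∑ v ∈ S, ((S.filter (G.Adj v)).card : ℝ) + S.card := by
    rw [Finset.sum_add_distrib]
    simp
  rw [h1] at hcs
  have h2 : (0 : ℝ) ≤ ∑ v ∈ S, ((S.filter (G.Adj v)).card : ℝ) + S.card := by positivity
  calc (S.card : ℝ) ^ 2 ≤ _ := hcs
    _ ≤ (∑ v ∈ S, ((S.filter (G.Adj v)).card : ℝ) + S.card) * a :=
        mul_le_mul_of_nonneg_left (hT.trans hTa) h2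
    _ = _ := mul_comm _ _

/-- Cauchy-Schwarz followed by Turan in every set of a family. -/
theorem cs_turan (G : SimpleGraph V) (a : ℝ) (h : IndLe G a) {ι : Type*}
    (I : Finset ι) (T : ι → Finset V) :
    (∑ i ∈ I, ((T i).card : ℝ)) ^ 2 ≤ (I.card : ℝ) * (a *
      (∑ v, ∑ v' ∈ univ.filter (G.Adj v), ((I.filter (fun i => v ∈ T i ∧ v' ∈ T i)).card : ℝ)
        + ∑ i ∈ I, ((T i).card : ℝ))) := by
  have h1 : (∑ i ∈ I, ((T i).card : ℝ)) ^ 2 ≤ (I.card : ℝ) * ∑ i ∈ I, ((T i).card : ℝ) ^ 2 :=
    sq_sum_le_card_mul_sum_sq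
  refine h1.trans (mul_le_mul_of_nonneg_left ?_ (by positivity))
  have h2 : ∑ i ∈ I, ((T i).card : ℝ) ^ 2
      ≤ ∑ i ∈ I, a * (∑ v ∈ T i, (((T i).filter (G.Adj v)).card : ℝ) + (T i).card) :=
    Finset.sum_le_sum (fun i _ => turan G a h (T i))
  refine h2.trans (le_of_eq ?_)
  rw [← Finset.mul_sum, Finset.sum_add_distrib]
  congr 2
  have h3 : ∀ i ∈ I, ∑ v ∈ T i, (((T i).filter (G.Adj v)).card : ℝ)
      = ∑ v, ∑ v' ∈ univ.filter (G.Adj v), (if v ∈ T i ∧ v' ∈ T i then (1 : ℝ) else 0) := by
    intro i _
    rw [← Finset.sum_filter_add_sum_filter_not univ (fun v => v ∈ T i)]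
    have hz : ∑ v ∈ univ.filter (fun v => ¬ v ∈ T i), ∑ v' ∈ univ.filter (G.Adj v),
        (if v ∈ T i ∧ v' ∈ T i then (1 : ℝ) else 0) = 0 := by
      apply Finset.sum_eq_zero
      intro v hv
      apply Finset.sum_eq_zero
      intro v' _
      have : v ∉ T i := (Finset.mem_filter.1 hv).2
      simp [this]
    rw [hz, add_zero]
    have hf : univ.filter (fun v => v ∈ T i) = T i := by ext; simp
    rw [hf]
    apply Finset.sum_congr rfl
    intro v hv
    simp only [hv, true_and]
    rw [Finset.sum_boole]
    congr 2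
    ext u
    simp [and_comm]
  rw [Finset.sum_congr rfl h3, Finset.sum_comm]
  apply Finset.sum_congr rfl
  intro v _
  rw [Finset.sum_comm]
  apply Finset.sum_congr rfl
  intro v' _
  rw [Finset.sum_boole]

end

end Run7.h328
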