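import Mathlib
import Pool.Agent.Run7.h328.Turan

set_option autoImplicit false
set_option linter.unusedSectionVars false

namespace Run7.h328

open Finset
open scoped Classical

section

variable {V : Type*} [Fintype V]

/-- `G` has no complete subgraph on four vertices. -/
def NoK4 (G : SimpleGraph V) : Prop :=
  ∀ w x y z : V, G.Adj w x → G.Adj w y → G.Adj w z → G.Adj x y → G.Adj x z → G.Adj y z → False

/-- `G` has no Moser spindle as a subgraph. -/
def NoSpindle (G : SimpleGraph V) : Prop :=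
  ∀ b p q e p' q' e' : V, G.Adj b p → G.Adj b q → G.Adj p q → G.Adj e p → G.Adj e q →
    G.Adj b p' → G.Adj b q' → G.Adj p' q' → G.Adj e' p' → G.Adj e' q' → G.Adj e e' →
    b ≠ e → b ≠ e' → p ≠ p' → p ≠ q' → q ≠ p' → q ≠ q' → False

/-- there is an edge in the common neighbourhood of `b` and `e` avoiding any two given vertices -/
def Good (G : SimpleGraph V) (b e : V) : Prop :=
  ∀ p q : V, ∃ x y : V, G.Adj x y ∧ G.Adj b x ∧ G.Adj b y ∧ G.Adj e x ∧ G.Adj e y ∧
    x ≠ p ∧ x ≠ q ∧ y ≠ p ∧ y ≠ q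

/-- the set `D⁺(b)` -/
noncomputable def Dp (G : SimpleGraph V) (b : V) : Finset V :=
  univ.filter (fun e => e = b ∨ Good G b e)

theorem mem_Dp (G : SimpleGraph V) (b e : V) : e ∈ Dp G b ↔ e = b ∨ Good G b e := by
  simp [Dp]

theorem Good.not_adj {G : SimpleGraph V} (h4 : NoK4 G) {b e : V} (h : Good G b e) :
    ¬ G.Adj b e := by
  intro hbe
  obtain ⟨x, y, hxy, hbx, hby, hex, hey, _⟩ := h b b
  exact h4 b e x y hbe hbx hby hex hey hxy

theorem Dp_indep (G : SimpleGraph V) (h4 : NoK4 G) (hs : NoSpindle G) (b : V) :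
    ∀ x ∈ Dp G b, ∀ y ∈ Dp G b, ¬ G.Adj x y := by
  intro e he e' he' hadj
  rw [mem_Dp] at he he'
  by_cases hb : e = b
  · subst hb
    rcases he' with rfl | he'
    · exact G.loopless.irrefl _ hadj
    · exact he'.not_adj h4 hadj
  by_cases hb' : e' = b
  · subst hb'
    rcases he with rfl | he
    · exact hb rfl
    · exact he.not_adj h4 hadj.symm
  have he := he.resolve_left hb
  have he' := he'.resolve_left hb'
  obtain ⟨x, y, hxy, hbx, hby, hex, hey, _⟩ := he b b
  obtain ⟨x', y', hxy', hbx', hby', hex', hey', h1, h2, h3, h4'⟩ := he' x y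
  exact hs b x y e x' y' e' hbx hby hxy hex hey hbx' hby' hxy' hex' hey' hadj
    (Ne.symm hb) (Ne.symm hb') h1.symm h3.symm h2.symm h4'.symm

theorem Dp_card (G : SimpleGraph V) (h4 : NoK4 G) (hs : NoSpindle G) (a : ℝ) (ha : IndLe G a)
    (b : V) : ((Dp G b).card : ℝ) ≤ a :=
  ha _ (Dp_indep G h4 hs b)

/-- the pair `(x, y)` is an edge in the neighbourhood of `b` which has a further common neighbour
`e` such that `(b, e)` is not good -/
def Bad (G : SimpleGraph V) (b x y : V) : Prop :=
  G.Adj x y ∧ G.Adj b x ∧ G.Adj b y ∧ ∃ e, e ≠ b ∧ G.Adj e x ∧ G.Adj e y ∧ ¬ Good G b e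

theorem exists_cover (G : SimpleGraph V) (hs : NoSpindle G) (a : ℝ)
    (ha : IndLe G a) (b : V) :
    ∃ Z : Finset V, (Z.card : ℝ) ≤ 4 * a ∧ ∀ x y, Bad G b x y → x ∈ Z ∨ y ∈ Z := by
  -- a matching of maximal size
  let M : Finset (Finset (V × V)) := univ.filter (fun M => (∀ f ∈ M, Bad G b f.1 f.2) ∧
    ∀ f ∈ M, ∀ g ∈ M, f ≠ g → f.1 ≠ g.1 ∧ f.1 ≠ g.2 ∧ f.2 ≠ g.1 ∧ f.2 ≠ g.2)
  have hM : M.Nonempty := ⟨∅, by simp [M]⟩
  obtain ⟨S, hSM, hmax⟩ := Finset.exists_max_image M Finset.card hM
  simp only [M, Finset.mem_filter, Finset.mem_univ, true_and] at hSM hmax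
  obtain ⟨hbad, hdis⟩ := hSM
  refine ⟨S.image Prod.fst ∪ S.image Prod.snd, ?_, ?_⟩
  · -- size
    have : Nonempty V := ⟨b⟩
    choose! E hE using fun f (hf : f ∈ S) => (hbad f hf).2.2.2
    have hind : ((S.image E).card : ℝ) ≤ a := by
      apply ha
      intro e he e' he' hadj
      obtain ⟨f, hf, rfl⟩ := Finset.mem_image.1 he
      obtain ⟨g, hg, rfl⟩ := Finset.mem_image.1 he'
      have hfg : f ≠ g := by
        rintro rfl
        exact G.loopless.irrefl _ hadj
      obtain ⟨h1, h2, h3, _⟩ := hbad f hf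
      obtain ⟨h1', h2', h3', _⟩ := hbad g hg
      obtain ⟨k1, k2, k3, _⟩ := hE f hf
      obtain ⟨k1', k2', k3', _⟩ := hE g hg
      obtain ⟨d1, d2, d3, d4⟩ := hdis f hf g hg hfg
      exact hs b f.1 f.2 (E f) g.1 g.2 (E g) h2 h3 h1 k2 k3 h2' h3' h1' k2' k3' hadj
        k1.symm k1'.symm d1 d2 d3 d4
    have hfib : ∀ e ∈ S.image E, (S.filter (fun f => E f = e)).card ≤ 2 := by
      intro e he
      obtain ⟨f, hf, rfl⟩ := Finset.mem_image.1 he
      have hng := (hE f hf).2.2.2
      unfold Good at hng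
      push Not at hng
      obtain ⟨p, q, hpq⟩ := hng
      -- every f in the fibre contains p or q
      have hcov : ∀ g ∈ S.filter (fun g => E g = E f), (g.1 = p ∨ g.2 = p) ∨ (g.1 = q ∨ g.2 = q) := by
        intro g hg
        rw [Finset.mem_filter] at hg
        obtain ⟨h1', h2', h3', _⟩ := hbad g hg.1
        obtain ⟨k1', k2', k3', _⟩ := hE g hg.1
        rw [hg.2] at k1' k2' k3'
        have := hpq g.1 g.2 h1' h2' h3' k2' k3'
        by_contra hcon
        push Not at hcon
        exact hcon.2.2 (this hcon.1.1 hcon.2.1 hcon.1.2)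
      have hsub : S.filter (fun g => E g = E f)
          ⊆ (S.filter (fun g => g.1 = p ∨ g.2 = p)) ∪ (S.filter (fun g => g.1 = q ∨ g.2 = q)) := by
        intro g hg
        have h := hcov g hg
        rw [Finset.mem_filter] at hg
        rw [Finset.mem_union, Finset.mem_filter, Finset.mem_filter]
        rcases h with h | h
        · exact Or.inl ⟨hg.1, h⟩
        · exact Or.inr ⟨hg.1, h⟩
      have hone : ∀ p : V, (S.filter (fun g => g.1 = p ∨ g.2 = p)).card ≤ 1 := by
        intro p
        rw [Finset.card_le_one]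
        intro g hg g' hg'
        rw [Finset.mem_filter] at hg hg'
        by_contra hne
        obtain ⟨d1, d2, d3, d4⟩ := hdis g hg.1 g' hg'.1 hne
        rcases hg.2 with h | h <;> rcases hg'.2 with h' | h'
        · exact d1 (h.trans h'.symm)
        · exact d2 (h.trans h'.symm)
        · exact d3 (h.trans h'.symm)
        · exact d4 (h.trans h'.symm)
      calc (S.filter (fun g => E g = E f)).card ≤ _ := Finset.card_le_card hsub
        _ ≤ _ := Finset.card_union_le _ _
        _ ≤ 1 + 1 := Nat.add_le_add (hone p) (hone q)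
        _ = 2 := rfl
    have hSc : S.card ≤ 2 * (S.image E).card := Finset.card_le_mul_card_image S 2 hfib
    have h1 : (S.image Prod.fst ∪ S.image Prod.snd).card ≤ S.card + S.card :=
      (Finset.card_union_le _ _).trans (Nat.add_le_add Finset.card_image_le Finset.card_image_le)
    have h2 : (S.image Prod.fst ∪ S.image Prod.snd).card ≤ 4 * (S.image E).card := by omega
    have h3 : ((S.image Prod.fst ∪ S.image Prod.snd).card : ℝ) ≤ 4 * ((S.image E).card : ℝ) := by
      exact_mod_cast h2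
    linarith
  · intro x y hxy
    by_contra hcon
    push Not at hcon
    obtain ⟨hx, hy⟩ := hcon
    have hx1 : ∀ f ∈ S, x ≠ f.1 ∧ x ≠ f.2 := by
      intro f hf
      constructor
      · rintro rfl
        exact hx (Finset.mem_union_left _ (Finset.mem_image_of_mem _ hf))
      · rintro rfl
        exact hx (Finset.mem_union_right _ (Finset.mem_image_of_mem _ hf))
    have hy1 : ∀ f ∈ S, y ≠ f.1 ∧ y ≠ f.2 := by
      intro f hf
      constructor
      · rintro rfl
        exact hy (Finset.mem_union_left _ (Finset.mem_image_of_mem _ hf))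
      · rintro rfl
        exact hy (Finset.mem_union_right _ (Finset.mem_image_of_mem _ hf))
    have hnot : (x, y) ∉ S := fun h => (hx1 _ h).1 rfl
    have := hmax (insert (x, y) S) ⟨?_, ?_⟩
    · rw [Finset.card_insert_of_notMem hnot] at this
      omega
    · intro f hf
      rcases Finset.mem_insert.1 hf with rfl | hf
      · exact hxy
      · exact hbad f hf
    · intro f hf g hg hfg
      rcases Finset.mem_insert.1 hf with rfl | hf <;> rcases Finset.mem_insert.1 hg with rfl | hg
      · exact absurd rfl hfg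
      · exact ⟨(hx1 g hg).1, (hx1 g hg).2, (hy1 g hg).1, (hy1 g hg).2⟩
      · exact ⟨(hx1 f hf).1.symm, (hy1 f hf).1.symm, (hx1 f hf).2.symm, (hy1 f hf).2.symm⟩
      · exact hdis f hf g hg hfg

/-- The graph `G'`, given by its neighbourhoods. -/
theorem exists_G' (G : SimpleGraph V) (hs : NoSpindle G) (a : ℝ)
    (ha : IndLe G a) :
    ∃ N : V → Finset V, (∀ v, N v ⊆ univ.filter (G.Adj v)) ∧ (∀ u v, u ∈ N v → v ∈ N u) ∧
      (∑ v, ((univ.filter (G.Adj v) \ N v).card : ℝ) ≤ 8 * a * Fintype.card V) ∧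
      (∀ b v x e, v ∈ N b → x ∈ N b → G.Adj v x → G.Adj e v → G.Adj e x → e ∈ Dp G b) := by
  choose Z hZ1 hZ2 using exists_cover G hs a ha
  refine ⟨fun b => univ.filter (fun z => G.Adj b z ∧ z ∉ Z b ∧ b ∉ Z z), ?_, ?_, ?_, ?_⟩
  · intro v u hu
    simp only [Finset.mem_filter, Finset.mem_univ, true_and] at hu ⊢
    exact hu.1
  · intro u v hu
    simp only [Finset.mem_filter, Finset.mem_univ, true_and] at hu ⊢
    exact ⟨hu.1.symm, hu.2.2, hu.2.1⟩
  · have h1 : ∀ b, ((univ.filter (G.Adj b)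
        \ univ.filter (fun z => G.Adj b z ∧ z ∉ Z b ∧ b ∉ Z z)).card : ℝ)
        ≤ (Z b).card + (univ.filter (fun z => b ∈ Z z)).card := by
      intro b
      have : univ.filter (G.Adj b) \ univ.filter (fun z => G.Adj b z ∧ z ∉ Z b ∧ b ∉ Z z)
          ⊆ Z b ∪ univ.filter (fun z => b ∈ Z z) := by
        intro z hz
        simp only [Finset.mem_sdiff, Finset.mem_filter, Finset.mem_univ, true_and, not_and,
          not_not] at hz
        simp only [Finset.mem_union, Finset.mem_filter, Finset.mem_univ, true_and]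
        by_cases hzb : z ∈ Z b
        · exact Or.inl hzb
        · exact Or.inr (hz.2 hz.1 hzb)
      have := (Finset.card_le_card this).trans (Finset.card_union_le _ _)
      exact_mod_cast this
    have h2 : ∑ b, ((univ.filter (fun z => b ∈ Z z)).card : ℝ) = ∑ b, ((Z b).card : ℝ) := by
      have e1 : ∀ b, ((univ.filter (fun z => b ∈ Z z)).card : ℝ)
          = ∑ z, (if b ∈ Z z then (1 : ℝ) else 0) := by
        intro b; rw [Finset.sum_boole]
      have e2 : ∀ z, ((Z z).card : ℝ) = ∑ b, (if b ∈ Z z then (1 : ℝ) else 0) := by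
        intro z; rw [Finset.sum_boole]; congr 2; ext; simp
      rw [Finset.sum_congr rfl (fun b _ => e1 b), Finset.sum_congr rfl (fun b _ => e2 b),
        Finset.sum_comm]
    have h3 : ∑ b, ((Z b).card : ℝ) ≤ 4 * a * Fintype.card V := by
      calc ∑ b, ((Z b).card : ℝ) ≤ ∑ _b : V, 4 * a := Finset.sum_le_sum (fun b _ => hZ1 b)
        _ = 4 * a * Fintype.card V := by
          rw [Finset.sum_const, nsmul_eq_mul, Finset.card_univ, mul_comm]
    calc _ ≤ ∑ b, (((Z b).card : ℝ) + (univ.filter (fun z => b ∈ Z z)).card) :=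
          Finset.sum_le_sum (fun b _ => h1 b)
      _ = ∑ b, ((Z b).card : ℝ) + ∑ b, ((Z b).card : ℝ) := by
          rw [Finset.sum_add_distrib, h2]
      _ ≤ 8 * a * Fintype.card V := by linarith
  · intro b v x e hv hx hvx hev hex
    simp only [Finset.mem_filter, Finset.mem_univ, true_and] at hv hx
    rw [mem_Dp]
    by_contra hcon
    push Not at hcon
    rcases hZ2 b v x ⟨hvx, hv.1, hx.1, e, hcon.1, hev, hex, hcon.2⟩ with h | h
    · exact hv.2.1 h
    · exact hx.2.1 h

end

end Run7.h328
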