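import Mathlib
import Pool.Agent.Run7.h328.Local

set_option autoImplicit false
set_option linter.unusedSectionVars false

namespace Run7.h328

open Finset
open scoped Classical

section

variable {V : Type*} [Fintype V]

/-- the set of vertices with a neighbour in `I` -/
noncomputable def NG (G : SimpleGraph V) (I : Finset V) : Finset V :=
  univ.filter (fun u => ∃ x ∈ I, G.Adj x u)

theorem mem_NG (G : SimpleGraph V) (I : Finset V) (u : V) :
    u ∈ NG G I ↔ ∃ x ∈ I, G.Adj x u := by simp [NG]

/-- a finset without edges of `G` -/
def Ind (G : SimpleGraph V) (S : Finset V) : Prop := ∀ x ∈ S, ∀ y ∈ S, ¬ G.Adj x y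

/-- cleaning: a subgraph with few missing edges in which independent sets expand inside every
neighbourhood -/
theorem clean (G : SimpleGraph V) (a : ℝ) (ha : IndLe G a) (N0 : V → Finset V)
    (hsym : ∀ u v, u ∈ N0 v → v ∈ N0 u) (K : ℝ) (hK : 0 ≤ K) :
    ∃ N : V → Finset V, (∀ v, N v ⊆ N0 v) ∧ (∀ u v, u ∈ N v → v ∈ N u) ∧
      (∑ v, ((N0 v \ N v).card : ℝ) ≤ 2 * (K + 1) * (a * Fintype.card V)) ∧
      (∀ v, ∀ I : Finset V, I ⊆ N v → Ind G I → K * I.card ≤ ((NG G I ∩ N v).card : ℝ)) := by
  let Val : Set ((V → Finset V) × (V → Finset V)) := {p | (∀ v, p.1 v ⊆ N0 v) ∧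
    (∀ u v, u ∈ p.1 v → v ∈ p.1 u) ∧ (∀ v, Ind G (p.2 v)) ∧
    (∀ v, ∀ u ∈ p.1 v, u ∉ p.2 v ∧ u ∉ NG G (p.2 v)) ∧
    (∑ v, ((N0 v \ p.1 v).card : ℝ) ≤ 2 * (K + 1) * ∑ v, ((p.2 v).card : ℝ))}
  have hne : Val.Nonempty := by
    refine ⟨(N0, fun _ => ∅), ?_, ?_, ?_, ?_, ?_⟩
    · intro v; exact Finset.Subset.refl _
    · exact hsym
    · intro v x hx; simp at hx
    · intro v u _; simp [mem_NG]
    · simp
  obtain ⟨⟨N, J⟩, hval, hmax⟩ := Set.exists_max_image Val
    (fun p => ∑ v, (p.2 v).card) (Set.toFinite _) hne
  obtain ⟨h1, h2, h3, h4, h5⟩ := hval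
  simp only at h1 h2 h3 h4 h5 hmax
  refine ⟨N, h1, h2, ?_, ?_⟩
  · refine h5.trans (mul_le_mul_of_nonneg_left ?_ (by positivity))
    calc ∑ v, ((J v).card : ℝ) ≤ ∑ _v : V, a := Finset.sum_le_sum (fun v _ => ha _ (h3 v))
      _ = a * Fintype.card V := by
        rw [Finset.sum_const, nsmul_eq_mul, Finset.card_univ, mul_comm]
  · intro v I hI hInd
    by_contra hcon
    push Not at hcon
    have hIne : I.Nonempty := by
      rw [Finset.nonempty_iff_ne_empty]
      rintro rfl
      simp at hcon
      exact absurd hcon (not_lt.2 (by positivity))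
    set R := I ∪ (NG G I ∩ N v) with hR
    have hRN : R ⊆ N v := Finset.union_subset hI Finset.inter_subset_right
    have hRc : (R.card : ℝ) ≤ (K + 1) * I.card := by
      have : (R.card : ℝ) ≤ I.card + (NG G I ∩ N v).card := by
        exact_mod_cast Finset.card_union_le _ _
      nlinarith
    let N' : V → Finset V := fun u =>
      (N u).filter (fun w => ¬ (u = v ∧ w ∈ R) ∧ ¬ (w = v ∧ u ∈ R))
    let J' : V → Finset V := Function.update J v (J v ∪ I)
    have hN'N : ∀ u, N' u ⊆ N u := fun u => Finset.filter_subset _ _
    have hdisj : Disjoint (J v) I := by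
      rw [Finset.disjoint_left]
      intro x hx hxI
      exact (h4 v x (hI hxI)).1 hx
    have hJ'v : J' v = J v ∪ I := Function.update_self _ _ _
    have hJ'u : ∀ u, u ≠ v → J' u = J u := fun u hu => Function.update_of_ne hu _ _
    have hJc : ∑ u, ((J' u).card : ℝ) = ∑ u, ((J u).card : ℝ) + I.card := by
      rw [← Finset.add_sum_erase _ _ (Finset.mem_univ v),
        ← Finset.add_sum_erase (a := v) (s := univ) (f := fun u => ((J u).card : ℝ))
          (Finset.mem_univ v)]
      have e1 : ∑ u ∈ univ.erase v, ((J' u).card : ℝ) = ∑ u ∈ univ.erase v, ((J u).card : ℝ) := by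
        apply Finset.sum_congr rfl
        intro u hu
        rw [hJ'u u (Finset.ne_of_mem_erase hu)]
      rw [e1, hJ'v, Finset.card_union_of_disjoint hdisj]
      push_cast
      ring
    have hmem : ((N', J') : (V → Finset V) × (V → Finset V)) ∈ Val := by
      refine ⟨?_, ?_, ?_, ?_, ?_⟩
      · intro u
        exact (hN'N u).trans (h1 u)
      · intro u w hu
        simp only [N', Finset.mem_filter] at hu ⊢
        refine ⟨h2 _ _ hu.1, ?_, ?_⟩
        · rintro ⟨rfl, h⟩
          exact hu.2.2 ⟨rfl, h⟩
        · rintro ⟨rfl, h⟩
          exact hu.2.1 ⟨rfl, h⟩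
      · intro u
        by_cases huv : u = v
        · subst huv
          simp only [hJ'v]
          intro x hx y hy
          rcases Finset.mem_union.1 hx with hx | hx <;> rcases Finset.mem_union.1 hy with hy | hy
          · exact h3 u x hx y hy
          · intro hadj
            exact (h4 u y (hI hy)).2 ((mem_NG _ _ _).2 ⟨x, hx, hadj⟩)
          · intro hadj
            exact (h4 u x (hI hx)).2 ((mem_NG _ _ _).2 ⟨y, hy, hadj.symm⟩)
          · exact hInd x hx y hy
        · simp only [hJ'u u huv]
          exact h3 u
      · intro u w hw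
        have hwN := hN'N u hw
        obtain ⟨g1, g2⟩ := h4 u w hwN
        by_cases huv : u = v
        · subst huv
          simp only [hJ'v]
          simp only [N', Finset.mem_filter] at hw
          have hwR : w ∉ R := fun h => hw.2.1 ⟨trivial, h⟩
          have hwI : w ∉ I := fun h => hwR (Finset.mem_union_left _ h)
          have hwNG : w ∉ NG G I := fun h =>
            hwR (Finset.mem_union_right _ (Finset.mem_inter.2 ⟨h, hwN⟩))
          constructor
          · rw [Finset.mem_union]
            tauto
          · rw [mem_NG]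
            rintro ⟨x, hx, hadj⟩
            rcases Finset.mem_union.1 hx with hx | hx
            · exact g2 ((mem_NG _ _ _).2 ⟨x, hx, hadj⟩)
            · exact hwNG ((mem_NG _ _ _).2 ⟨x, hx, hadj⟩)
        · simp only [hJ'u u huv]
          exact ⟨g1, g2⟩
      · simp only
        rw [hJc]
        have hle : ∀ u, ((N0 u \ N' u).card : ℝ) ≤ ((N0 u \ N u).card : ℝ)
            + ((if u = v then (R.card : ℝ) else 0) + (if u ∈ R then (1 : ℝ) else 0)) := by
          intro u
          have hsub : N0 u \ N' u ⊆ (N0 u \ N u) ∪
              ((if u = v then R else ∅) ∪ (if u ∈ R then {v} else ∅)) := by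
            intro w hw
            rw [Finset.mem_sdiff] at hw
            simp only [N', Finset.mem_filter] at hw
            rw [Finset.mem_union, Finset.mem_union, Finset.mem_sdiff]
            by_cases hwN : w ∈ N u
            · right
              by_cases hc : u = v ∧ w ∈ R
              · left
                rw [if_pos hc.1]
                exact hc.2
              · right
                have : w = v ∧ u ∈ R := by tauto
                rw [if_pos this.2, this.1]
                simp
            · left
              exact ⟨hw.1, hwN⟩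
          have hc := (Finset.card_le_card hsub).trans (Finset.card_union_le _ _)
          have hc2 := Finset.card_union_le (if u = v then R else ∅)
            (if u ∈ R then ({v} : Finset V) else ∅)
          have hc3 : (N0 u \ N' u).card ≤ (N0 u \ N u).card
              + ((if u = v then R else ∅).card
              + (if u ∈ R then ({v} : Finset V) else ∅).card) := by omega
          have hc4 : ((N0 u \ N' u).card : ℝ) ≤ ((N0 u \ N u).card : ℝ)
              + (((if u = v then R else ∅).card : ℝ)
              + ((if u ∈ R then ({v} : Finset V) else ∅).card : ℝ)) := by exact_mod_cast hc3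
          refine hc4.trans (le_of_eq ?_)
          congr 2
          · split_ifs <;> simp
          · split_ifs <;> simp
        have hs : ∑ u, ((N0 u \ N' u).card : ℝ) ≤ ∑ u, ((N0 u \ N u).card : ℝ) + 2 * R.card := by
          refine (Finset.sum_le_sum (fun u _ => hle u)).trans (le_of_eq ?_)
          rw [Finset.sum_add_distrib, Finset.sum_add_distrib]
          have e1 : ∑ u, (if u = v then (R.card : ℝ) else 0) = R.card := by simp
          have e2 : ∑ u, (if u ∈ R then (1 : ℝ) else 0) = R.card := by
            rw [Finset.sum_boole]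
            congr 2
            ext; simp
          rw [e1, e2]
          ring
        nlinarith
    have := hmax _ hmem
    simp only at this
    have h6 : (∑ u, ((J' u).card : ℝ)) ≤ ∑ u, ((J u).card : ℝ) := by exact_mod_cast this
    rw [hJc] at h6
    have h7 : (0 : ℝ) < I.card := by exact_mod_cast hIne.card_pos
    linarith

end

end Run7.h328
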