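import Mathlib
import Pool.Agent.Run7.h328.Clean

set_option autoImplicit false
set_option linter.unusedSectionVars false

namespace Run7.h328

open Finset
open scoped Classical

section

variable {V : Type*} [Fintype V]

/-- the properties of the first subgraph `G'` -/
structure Prime (G : SimpleGraph V) (N' : V → Finset V) : Prop where
  adj : ∀ v u, u ∈ N' v → G.Adj v u
  symm : ∀ u v, u ∈ N' v → v ∈ N' u
  three : ∀ b v x e, v ∈ N' b → x ∈ N' b → G.Adj v x → G.Adj e v → G.Adj e x → e ∈ Dp G b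

/-- a cleaned subgraph -/
structure Cl (G : SimpleGraph V) (N' N : V → Finset V) (K : ℝ) : Prop where
  sub : ∀ v, N v ⊆ N' v
  symm : ∀ u v, u ∈ N v → v ∈ N u
  exp : ∀ v, ∀ I : Finset V, I ⊆ N v → Ind G I → K * I.card ≤ ((NG G I ∩ N v).card : ℝ)

theorem ind_common {G : SimpleGraph V} (h4 : NoK4 G) {v w : V} (hvw : G.Adj v w)
    {I : Finset V} (h1 : ∀ x ∈ I, G.Adj v x) (h2 : ∀ x ∈ I, G.Adj w x) : Ind G I := by
  intro x hx y hy hxy
  exact h4 v w x y hvw (h1 x hx) (h1 y hy) (h2 x hx) (h2 y hy) hxy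

/-- Claim 4: codegrees of adjacent pairs are small. -/
theorem codeg {G : SimpleGraph V} (h4 : NoK4 G) (hs : NoSpindle G) {a : ℝ}
    (ha : IndLe G a) {N' N : V → Finset V} {K : ℝ} (hP : Prime G N') (hC : Cl G N' N K)
    {v w : V} (hvw : G.Adj v w) : K * ((N v ∩ N w).card : ℝ) ≤ a := by
  set I := N v ∩ N w with hI
  have hIv : ∀ x ∈ I, x ∈ N' v := fun x hx => hC.sub v (Finset.mem_inter.1 hx).1
  have hIw : ∀ x ∈ I, x ∈ N' w := fun x hx => hC.sub w (Finset.mem_inter.1 hx).2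
  have hInd : Ind G I := ind_common h4 hvw (fun x hx => hP.adj _ _ (hIv x hx))
    (fun x hx => hP.adj _ _ (hIw x hx))
  refine (hC.exp v I Finset.inter_subset_left hInd).trans (ha _ ?_)
  intro e he e' he' hadj
  obtain ⟨he1, he2⟩ := Finset.mem_inter.1 he
  obtain ⟨he1', he2'⟩ := Finset.mem_inter.1 he'
  obtain ⟨x, hx, hxe⟩ := (mem_NG _ _ _).1 he1
  obtain ⟨x', hx', hxe'⟩ := (mem_NG _ _ _).1 he1'
  have hve := hP.adj _ _ (hC.sub v he2)
  have hve' := hP.adj _ _ (hC.sub v he2')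
  have hvx := hP.adj _ _ (hIv x hx)
  have hvx' := hP.adj _ _ (hIv x' hx')
  have hwx := hP.adj _ _ (hIw x hx)
  have hwx' := hP.adj _ _ (hIw x' hx')
  have hne : x ≠ x' := by
    rintro rfl
    exact h4 v x e e' hvx hve hve' hxe hxe' hadj
  have hxx' : ¬ G.Adj x x' := hInd x hx x' hx'
  have hex' : ¬ G.Adj x e' := fun h => h4 v x e e' hvx hve hve' hxe h hadj
  -- `x'` is good for `x`
  have hgood : Good G x x' := by
    have := hP.three x v w x' (hP.symm _ _ (hIv x hx)) (hP.symm _ _ (hIw x hx)) hvw hvx'.symm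
      hwx'.symm
    rcases (mem_Dp _ _ _).1 this with h | h
    · exact absurd h.symm hne
    · exact h
  obtain ⟨y, z, hyz, hxy, hxz, hx'y, hx'z, d1, d2, d3, d4⟩ := hgood v e
  have hxe'ne : x ≠ e' := by
    rintro rfl
    exact hxx' hxe'.symm
  exact hs x v e e' y z x' hvx.symm hxe hve hve'.symm hadj.symm hxy hxz hyz hx'y hx'z hxe'.symm
    hxe'ne hne d1.symm d3.symm d2.symm d4.symm

/-- Many elements of `D⁺(b)` in `N v`. -/
theorem dp_ge {G : SimpleGraph V} (h4 : NoK4 G)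
    {N' N : V → Finset V} {K : ℝ} (hP : Prime G N') (hC : Cl G N' N K)
    {b v : V} (hbv : v ∈ N' b) : K * ((N' b ∩ N v).card : ℝ) ≤ ((Dp G b ∩ N v).card : ℝ) := by
  have hadj := hP.adj _ _ hbv
  have hInd : Ind G (N' b ∩ N v) := ind_common h4 hadj
    (fun x hx => hP.adj _ _ (Finset.mem_inter.1 hx).1)
    (fun x hx => hP.adj _ _ (hC.sub v (Finset.mem_inter.1 hx).2))
  refine (hC.exp v _ Finset.inter_subset_right hInd).trans ?_
  have : NG G (N' b ∩ N v) ∩ N v ⊆ Dp G b ∩ N v := by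
    intro u hu
    obtain ⟨h1, h2⟩ := Finset.mem_inter.1 hu
    obtain ⟨x, hx, hxu⟩ := (mem_NG _ _ _).1 h1
    obtain ⟨hx1, hx2⟩ := Finset.mem_inter.1 hx
    refine Finset.mem_inter.2 ⟨?_, h2⟩
    exact hP.three b v x u hbv hx1 (hP.adj _ _ (hC.sub v hx2))
      (hP.adj _ _ (hC.sub v h2)).symm hxu.symm
  exact_mod_cast Finset.card_le_card this

/-- ordered sum over the adjacent pairs of `G` -/
noncomputable def esum (G : SimpleGraph V) (f : V → V → ℝ) : ℝ :=
  ∑ v, ∑ w ∈ univ.filter (G.Adj v), f v w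

theorem esum_mono {G : SimpleGraph V} {f g : V → V → ℝ} (h : ∀ v w, G.Adj v w → f v w ≤ g v w) :
    esum G f ≤ esum G g := by
  apply Finset.sum_le_sum
  intro v _
  apply Finset.sum_le_sum
  intro w hw
  exact h v w (by simpa using hw)

/-- splitting an edge sum according to a subgraph -/
theorem esum_split {G : SimpleGraph V} {N : V → Finset V} (hN : ∀ v u, u ∈ N v → G.Adj v u)
    (f : V → V → ℝ) : esum G f = ∑ v, ∑ w ∈ N v, f v w
      + ∑ v, ∑ w ∈ univ.filter (G.Adj v) \ N v, f v w := by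
  unfold esum
  rw [← Finset.sum_add_distrib]
  apply Finset.sum_congr rfl
  intro v _
  rw [add_comm, Finset.sum_sdiff]
  intro u hu
  simpa using hN v u hu

theorem sum_inter_swap (A B : V → Finset V) (hB : ∀ u v, u ∈ B v → v ∈ B u) (b : V)
    (S : Finset V) :
    ∑ v ∈ S, ((A b ∩ B v).card : ℝ) = ∑ e ∈ A b, ((S ∩ B e).card : ℝ) := by
  have e1 : ∀ v ∈ S, ((A b ∩ B v).card : ℝ) = ∑ e ∈ A b, (if e ∈ B v then (1 : ℝ) else 0) := by
    intro v _
    rw [Finset.sum_boole]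
    congr 2
  have e2 : ∀ e ∈ A b, ((S ∩ B e).card : ℝ) = ∑ v ∈ S, (if v ∈ B e then (1 : ℝ) else 0) := by
    intro e _
    rw [Finset.sum_boole]
    congr 2
  rw [Finset.sum_congr rfl e1, Finset.sum_congr rfl e2, Finset.sum_comm]
  apply Finset.sum_congr rfl
  intro e _
  apply Finset.sum_congr rfl
  intro v _
  have : e ∈ B v ↔ v ∈ B e := ⟨hB _ _, hB _ _⟩
  simp [this]

end

end Run7.h328
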