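import Mathlib
import Pool.Agent.Run7.h328.Count

set_option autoImplicit false
set_option linter.unusedSectionVars false

namespace Run7.h328

open Finset
open scoped Classical

section

variable {V : Type*} [Fintype V]

/-- sum of the codegrees over the adjacent pairs -/
theorem x_eq (G : SimpleGraph V) (N : V → Finset V) (hsym : ∀ u v, u ∈ N v → v ∈ N u) :
    esum G (fun v w => ((N v ∩ N w).card : ℝ))
      = ∑ c, ∑ v ∈ N c, (((N c).filter (G.Adj v)).card : ℝ) := by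
  unfold esum
  have e1 : ∀ v w, ((N v ∩ N w).card : ℝ) = ∑ c, (if v ∈ N c ∧ w ∈ N c then (1 : ℝ) else 0) := by
    intro v w
    rw [Finset.sum_boole]
    congr 2
    ext c
    simp only [Finset.mem_inter, Finset.mem_filter, Finset.mem_univ, true_and]
    exact ⟨fun h => ⟨hsym _ _ h.1, hsym _ _ h.2⟩, fun h => ⟨hsym _ _ h.1, hsym _ _ h.2⟩⟩
  have e2 : ∀ c v, v ∈ N c → (((N c).filter (G.Adj v)).card : ℝ)
      = ∑ w ∈ univ.filter (G.Adj v), (if v ∈ N c ∧ w ∈ N c then (1 : ℝ) else 0) := by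
    intro c v hv
    simp only [hv, true_and]
    rw [Finset.sum_boole]
    congr 2
    ext w
    simp [and_comm]
  have e3 : ∀ c, ∑ v ∈ N c, (((N c).filter (G.Adj v)).card : ℝ)
      = ∑ v, ∑ w ∈ univ.filter (G.Adj v), (if v ∈ N c ∧ w ∈ N c then (1 : ℝ) else 0) := by
    intro c
    rw [Finset.sum_congr rfl (fun v hv => e2 c v hv)]
    apply Finset.sum_subset (Finset.subset_univ _)
    intro v _ hv
    apply Finset.sum_eq_zero
    intro w _
    simp [hv]
  rw [Finset.sum_congr rfl (fun c _ => e3 c), Finset.sum_comm]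
  apply Finset.sum_congr rfl
  intro v _
  rw [Finset.sum_comm]
  apply Finset.sum_congr rfl
  intro w _
  exact e1 v w

theorem x_ge {G : SimpleGraph V} {N' N : V → Finset V} {K : ℝ} (hC : Cl G N' N K) :
    K * ∑ c, ((N c).card : ℝ) ≤ esum G (fun v w => ((N v ∩ N w).card : ℝ)) := by
  rw [x_eq G N hC.symm, Finset.mul_sum]
  apply Finset.sum_le_sum
  intro c _
  have h : ∀ v ∈ N c, K ≤ (((N c).filter (G.Adj v)).card : ℝ) := by
    intro v hv
    have := hC.exp c {v} (by simpa using hv) (by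
      intro x hx y hy
      rw [Finset.mem_singleton] at hx hy
      subst hx; subst hy
      exact G.loopless.irrefl _)
    simp only [Finset.card_singleton, Nat.cast_one, mul_one] at this
    refine this.trans (le_of_eq ?_)
    congr 2
    ext u
    simp [mem_NG, and_comm]
  calc K * ((N c).card : ℝ) = ∑ _v ∈ N c, K := by rw [Finset.sum_const, nsmul_eq_mul, mul_comm]
    _ ≤ _ := Finset.sum_le_sum h

/-- the lower bound for `P` -/
theorem p_ge {G : SimpleGraph V} (h4 : NoK4 G) (hs : NoSpindle G) {a : ℝ}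
    (ha : IndLe G a) {N' N : V → Finset V} {K : ℝ} (hP : Prime G N')
    (hC : Cl G N' N K)
    (hmiss : ∑ v, ((univ.filter (G.Adj v) \ N' v).card : ℝ) ≤ 8 * a * Fintype.card V) (ha0 : 0 ≤ a) :
    K * esum G (fun v w => ((N v ∩ N w).card : ℝ)) - 8 * a ^ 2 * Fintype.card V
      ≤ ∑ b, ∑ v ∈ N b, ((Dp G b ∩ N v).card : ℝ) := by
  have h1 : K * ∑ b, ∑ v ∈ N b, ((N' b ∩ N v).card : ℝ)
      ≤ ∑ b, ∑ v ∈ N b, ((Dp G b ∩ N v).card : ℝ) := by
    rw [Finset.mul_sum]
    apply Finset.sum_le_sum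
    intro b _
    rw [Finset.mul_sum]
    apply Finset.sum_le_sum
    intro v hv
    exact dp_ge h4 hP hC (hC.sub b hv)
  refine le_trans ?_ h1
  have h2 : ∑ b, ∑ v ∈ N b, ((N' b ∩ N v).card : ℝ)
      = ∑ b, ∑ x ∈ N' b, ((N b ∩ N x).card : ℝ) := by
    apply Finset.sum_congr rfl
    intro b _
    exact sum_inter_swap N' N hC.symm b (N b)
  rw [h2]
  have h3 := esum_split hP.adj (fun v w => ((N v ∩ N w).card : ℝ))
  have h4' : K * ∑ v, ∑ w ∈ univ.filter (G.Adj v) \ N' v, ((N v ∩ N w).card : ℝ)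
      ≤ 8 * a ^ 2 * Fintype.card V := by
    rw [Finset.mul_sum]
    calc ∑ v, K * ∑ w ∈ univ.filter (G.Adj v) \ N' v, ((N v ∩ N w).card : ℝ)
        ≤ ∑ v, a * ((univ.filter (G.Adj v) \ N' v).card : ℝ) := by
          apply Finset.sum_le_sum
          intro v _
          rw [Finset.mul_sum]
          calc ∑ w ∈ univ.filter (G.Adj v) \ N' v, K * ((N v ∩ N w).card : ℝ)
              ≤ ∑ _w ∈ univ.filter (G.Adj v) \ N' v, a := by
                apply Finset.sum_le_sum
                intro w hw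
                apply codeg h4 hs ha hP hC
                have := (Finset.mem_sdiff.1 hw).1
                simpa using this
            _ = a * ((univ.filter (G.Adj v) \ N' v).card : ℝ) := by
                rw [Finset.sum_const, nsmul_eq_mul, mul_comm]
      _ = a * ∑ v, ((univ.filter (G.Adj v) \ N' v).card : ℝ) := by rw [Finset.mul_sum]
      _ ≤ a * (8 * a * Fintype.card V) := mul_le_mul_of_nonneg_left hmiss ha0
      _ = _ := by ring
  rw [h3, mul_add]
  linarith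

/-- the upper bound for `P` -/
theorem p_le {G : SimpleGraph V} (h4 : NoK4 G) (hs : NoSpindle G) {a : ℝ}
    (ha : IndLe G a) {N' N : V → Finset V} {K : ℝ} (hC : Cl G N' N K) (ha0 : 0 ≤ a) :
    (∑ b, ∑ v ∈ N b, ((Dp G b ∩ N v).card : ℝ)) ^ 2
      ≤ (a * Fintype.card V) * (a * (esum G (fun v w => ((N v ∩ N w).card : ℝ) ^ 2)
        + ∑ b, ∑ v ∈ N b, ((Dp G b ∩ N v).card : ℝ))) := by
  have hcs := cs_turan G a ha (univ.sigma (fun b : V => Dp G b))
    (fun i => N i.1 ∩ N i.2)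
  have hsum : ∑ i ∈ univ.sigma (fun b : V => Dp G b), ((N i.1 ∩ N i.2).card : ℝ)
      = ∑ b, ∑ v ∈ N b, ((Dp G b ∩ N v).card : ℝ) := by
    rw [Finset.sum_sigma]
    apply Finset.sum_congr rfl
    intro b _
    exact (sum_inter_swap (fun b => Dp G b) N hC.symm b (N b)).symm
  rw [hsum] at hcs
  have hcard : ((univ.sigma (fun b : V => Dp G b)).card : ℝ) ≤ a * Fintype.card V := by
    rw [Finset.card_sigma]
    push_cast
    calc ∑ b, ((Dp G b).card : ℝ) ≤ ∑ _b : V, a :=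
          Finset.sum_le_sum (fun b _ => Dp_card G h4 hs a ha b)
      _ = a * Fintype.card V := by
        rw [Finset.sum_const, nsmul_eq_mul, Finset.card_univ, mul_comm]
  have hE : (∑ v, ∑ v' ∈ univ.filter (G.Adj v),
      (((univ.sigma (fun b : V => Dp G b)).filter
        (fun i => v ∈ N i.1 ∩ N i.2 ∧ v' ∈ N i.1 ∩ N i.2)).card : ℝ))
      ≤ esum G (fun v w => ((N v ∩ N w).card : ℝ) ^ 2) := by
    apply esum_mono
    intro v w _
    have : ((univ.sigma (fun b : V => Dp G b)).filter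
        (fun i => v ∈ N i.1 ∩ N i.2 ∧ w ∈ N i.1 ∩ N i.2)).card
        ≤ ((N v ∩ N w) ×ˢ (N v ∩ N w)).card := by
      apply Finset.card_le_card_of_injOn (fun i => (i.1, i.2))
      · intro i hi
        simp only [Finset.coe_filter, Set.mem_ofPred_eq, Finset.mem_inter] at hi
        simp only [Finset.coe_product, Set.mem_prod, Finset.mem_coe, Finset.mem_inter]
        exact ⟨⟨hC.symm _ _ hi.2.1.1, hC.symm _ _ hi.2.2.1⟩,
          ⟨hC.symm _ _ hi.2.1.2, hC.symm _ _ hi.2.2.2⟩⟩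
      · rintro ⟨b, e⟩ _ ⟨b', e'⟩ _ h
        simp only [Prod.mk.injEq] at h
        obtain ⟨rfl, rfl⟩ := h
        rfl
    rw [Finset.card_product] at this
    have h2 : (((univ.sigma (fun b : V => Dp G b)).filter
        (fun i => v ∈ N i.1 ∩ N i.2 ∧ w ∈ N i.1 ∩ N i.2)).card : ℝ)
        ≤ ((N v ∩ N w).card : ℝ) * ((N v ∩ N w).card : ℝ) := by exact_mod_cast this
    rw [sq]
    exact h2
  have hP0 : (0 : ℝ) ≤ ∑ b, ∑ v ∈ N b, ((Dp G b ∩ N v).card : ℝ) := by positivity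
  have hE0 : (0 : ℝ) ≤ (∑ v, ∑ v' ∈ univ.filter (G.Adj v),
      (((univ.sigma (fun b : V => Dp G b)).filter
        (fun i => v ∈ N i.1 ∩ N i.2 ∧ v' ∈ N i.1 ∩ N i.2)).card : ℝ)) := by positivity
  refine hcs.trans ?_
  apply mul_le_mul hcard _ (by positivity) (by positivity)
  exact mul_le_mul_of_nonneg_left (by linarith) ha0

/-- the second count, lower bound -/
theorem q_ge {G : SimpleGraph V} (h4 : NoK4 G) (hs : NoSpindle G) {a : ℝ}
    (ha : IndLe G a) {N' N M : V → Finset V} {K L : ℝ} (hK : 0 < K) (hP : Prime G N')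
    (hC : Cl G N' N K) (hM : Cl G N' M L) {m : ℝ}
    (hmiss : ∑ v, ((univ.filter (G.Adj v) \ M v).card : ℝ) ≤ m) :
    K ^ 2 * esum G (fun v w => ((N v ∩ N w).card : ℝ) ^ 2) - a ^ 2 * m
      ≤ ∑ b, ∑ v ∈ M b, ((Dp G b ∩ N v).card : ℝ) ^ 2 := by
  have h1 : K ^ 2 * ∑ b, ∑ v ∈ M b, ((N b ∩ N v).card : ℝ) ^ 2
      ≤ ∑ b, ∑ v ∈ M b, ((Dp G b ∩ N v).card : ℝ) ^ 2 := by
    rw [Finset.mul_sum]
    apply Finset.sum_le_sum
    intro b _
    rw [Finset.mul_sum]
    apply Finset.sum_le_sum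
    intro v hv
    have h := dp_ge h4 hP hC (hM.sub b hv)
    have h' : ((N b ∩ N v).card : ℝ) ≤ ((N' b ∩ N v).card : ℝ) := by
      have : (N b ∩ N v) ⊆ (N' b ∩ N v) := Finset.inter_subset_inter_right (hC.sub b)
      exact_mod_cast Finset.card_le_card this
    rw [← mul_pow]
    have h0 : (0 : ℝ) ≤ K * ((N b ∩ N v).card : ℝ) := by positivity
    apply pow_le_pow_left₀ h0
    refine le_trans ?_ h
    exact mul_le_mul_of_nonneg_left h' hK.le
  refine le_trans ?_ h1
  have h3 := esum_split (N := M) (fun v u hu => hP.adj v u (hM.sub v hu))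
    (fun v w => ((N v ∩ N w).card : ℝ) ^ 2)
  have h4' : K ^ 2 * ∑ v, ∑ w ∈ univ.filter (G.Adj v) \ M v, ((N v ∩ N w).card : ℝ) ^ 2
      ≤ a ^ 2 * m := by
    rw [Finset.mul_sum]
    calc ∑ v, K ^ 2 * ∑ w ∈ univ.filter (G.Adj v) \ M v, ((N v ∩ N w).card : ℝ) ^ 2
        ≤ ∑ v, a ^ 2 * ((univ.filter (G.Adj v) \ M v).card : ℝ) := by
          apply Finset.sum_le_sum
          intro v _
          rw [Finset.mul_sum]
          calc ∑ w ∈ univ.filter (G.Adj v) \ M v, K ^ 2 * ((N v ∩ N w).card : ℝ) ^ 2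
              ≤ ∑ _w ∈ univ.filter (G.Adj v) \ M v, a ^ 2 := by
                apply Finset.sum_le_sum
                intro w hw
                rw [← mul_pow]
                apply pow_le_pow_left₀ (by positivity)
                apply codeg h4 hs ha hP hC
                have := (Finset.mem_sdiff.1 hw).1
                simpa using this
            _ = a ^ 2 * ((univ.filter (G.Adj v) \ M v).card : ℝ) := by
                rw [Finset.sum_const, nsmul_eq_mul, mul_comm]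
      _ = a ^ 2 * ∑ v, ((univ.filter (G.Adj v) \ M v).card : ℝ) := by rw [Finset.mul_sum]
      _ ≤ a ^ 2 * m := mul_le_mul_of_nonneg_left hmiss (by positivity)
  rw [h3, mul_add]
  linarith

/-- the second count, upper bound -/
theorem q_le {G : SimpleGraph V} (h4 : NoK4 G) (hs : NoSpindle G) {a : ℝ}
    (ha : IndLe G a) {N' N M : V → Finset V} {K L : ℝ} (hL : 0 < L) (hP : Prime G N')
    (hC : Cl G N' N K) (hM : Cl G N' M L) (ha0 : 0 ≤ a) :
    (∑ b, ∑ v ∈ M b, ((Dp G b ∩ N v).card : ℝ) ^ 2) ^ 2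
      ≤ (a ^ 2 * Fintype.card V) * (a * (a / L * esum G (fun v w => ((N v ∩ N w).card : ℝ) ^ 2)
        + ∑ b, ∑ v ∈ M b, ((Dp G b ∩ N v).card : ℝ) ^ 2)) := by
  have hcs := cs_turan G a ha (univ.sigma (fun b : V => Dp G b ×ˢ Dp G b))
    (fun i => M i.1 ∩ (N i.2.1 ∩ N i.2.2))
  have hsum : ∑ i ∈ univ.sigma (fun b : V => Dp G b ×ˢ Dp G b),
      ((M i.1 ∩ (N i.2.1 ∩ N i.2.2)).card : ℝ)
      = ∑ b, ∑ v ∈ M b, ((Dp G b ∩ N v).card : ℝ) ^ 2 := by
    rw [Finset.sum_sigma]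
    apply Finset.sum_congr rfl
    intro b _
    have e1 : ∀ v ∈ M b, ((Dp G b ∩ N v).card : ℝ) ^ 2
        = ∑ p ∈ Dp G b ×ˢ Dp G b, (if p.1 ∈ N v ∧ p.2 ∈ N v then (1 : ℝ) else 0) := by
      intro v _
      rw [Finset.sum_boole, sq]
      have : (Dp G b ×ˢ Dp G b).filter (fun p => p.1 ∈ N v ∧ p.2 ∈ N v)
          = (Dp G b ∩ N v) ×ˢ (Dp G b ∩ N v) := by
        ext p
        simp only [Finset.mem_filter, Finset.mem_product, Finset.mem_inter]
        tauto
      rw [this, Finset.card_product]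
      push_cast
      ring
    have e2 : ∀ p ∈ Dp G b ×ˢ Dp G b, ((M b ∩ (N p.1 ∩ N p.2)).card : ℝ)
        = ∑ v ∈ M b, (if p.1 ∈ N v ∧ p.2 ∈ N v then (1 : ℝ) else 0) := by
      intro p _
      rw [Finset.sum_boole]
      congr 2
      ext v
      simp only [Finset.mem_inter, Finset.mem_filter]
      exact ⟨fun h => ⟨h.1, hC.symm _ _ h.2.1, hC.symm _ _ h.2.2⟩,
        fun h => ⟨h.1, hC.symm _ _ h.2.1, hC.symm _ _ h.2.2⟩⟩
    rw [Finset.sum_congr rfl e1, Finset.sum_congr rfl e2, Finset.sum_comm]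
  rw [hsum] at hcs
  have hcard : ((univ.sigma (fun b : V => Dp G b ×ˢ Dp G b)).card : ℝ)
      ≤ a ^ 2 * Fintype.card V := by
    rw [Finset.card_sigma]
    push_cast
    calc ∑ b, (((Dp G b ×ˢ Dp G b).card : ℕ) : ℝ) ≤ ∑ _b : V, a ^ 2 := by
          apply Finset.sum_le_sum
          intro b _
          rw [Finset.card_product]
          push_cast
          have := Dp_card G h4 hs a ha b
          nlinarith [Nat.cast_nonneg (α := ℝ) (Dp G b).card]
      _ = a ^ 2 * Fintype.card V := by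
        rw [Finset.sum_const, nsmul_eq_mul, Finset.card_univ, mul_comm]
  have hE : (∑ v, ∑ v' ∈ univ.filter (G.Adj v),
      (((univ.sigma (fun b : V => Dp G b ×ˢ Dp G b)).filter
        (fun i => v ∈ M i.1 ∩ (N i.2.1 ∩ N i.2.2) ∧ v' ∈ M i.1 ∩ (N i.2.1 ∩ N i.2.2))).card : ℝ))
      ≤ a / L * esum G (fun v w => ((N v ∩ N w).card : ℝ) ^ 2) := by
    have : a / L * esum G (fun v w => ((N v ∩ N w).card : ℝ) ^ 2)
        = esum G (fun v w => a / L * ((N v ∩ N w).card : ℝ) ^ 2) := by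
      unfold esum
      rw [Finset.mul_sum]
      apply Finset.sum_congr rfl
      intro v _
      rw [Finset.mul_sum]
    rw [this]
    apply esum_mono
    intro v w hvw
    have h1 : ((univ.sigma (fun b : V => Dp G b ×ˢ Dp G b)).filter
        (fun i => v ∈ M i.1 ∩ (N i.2.1 ∩ N i.2.2) ∧ w ∈ M i.1 ∩ (N i.2.1 ∩ N i.2.2))).card
        ≤ ((M v ∩ M w) ×ˢ ((N v ∩ N w) ×ˢ (N v ∩ N w))).card := by
      apply Finset.card_le_card_of_injOn (fun i => (i.1, i.2))
      · intro i hi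
        simp only [Finset.coe_filter, Set.mem_ofPred_eq, Finset.mem_inter] at hi
        simp only [Finset.coe_product, Set.mem_prod, Finset.mem_coe, Finset.mem_inter]
        exact ⟨⟨hM.symm _ _ hi.2.1.1, hM.symm _ _ hi.2.2.1⟩,
          ⟨hC.symm _ _ hi.2.1.2.1, hC.symm _ _ hi.2.2.2.1⟩,
          ⟨hC.symm _ _ hi.2.1.2.2, hC.symm _ _ hi.2.2.2.2⟩⟩
      · rintro ⟨b, e⟩ _ ⟨b', e'⟩ _ h
        simp only [Prod.mk.injEq] at h
        obtain ⟨rfl, rfl⟩ := h
        rfl
    rw [Finset.card_product, Finset.card_product] at h1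
    have h2 : (((univ.sigma (fun b : V => Dp G b ×ˢ Dp G b)).filter
        (fun i => v ∈ M i.1 ∩ (N i.2.1 ∩ N i.2.2) ∧ w ∈ M i.1 ∩ (N i.2.1 ∩ N i.2.2))).card : ℝ)
        ≤ ((M v ∩ M w).card : ℝ) * (((N v ∩ N w).card : ℝ) * ((N v ∩ N w).card : ℝ)) := by
      exact_mod_cast h1
    refine h2.trans ?_
    rw [← sq]
    apply mul_le_mul_of_nonneg_right _ (by positivity)
    rw [le_div_iff₀ hL, mul_comm]
    exact codeg h4 hs ha hP hM hvw
  have hP0 : (0 : ℝ) ≤ ∑ b, ∑ v ∈ M b, ((Dp G b ∩ N v).card : ℝ) ^ 2 := by positivity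
  refine hcs.trans ?_
  apply mul_le_mul hcard _ (by positivity) (by positivity)
  exact mul_le_mul_of_nonneg_left (by linarith) ha0

end

end Run7.h328
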