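import Mathlib
import Pool.Agent.Run7.h328.Count2

set_option autoImplicit false
set_option linter.unusedSectionVars false

namespace Run7.h328

open Finset
open scoped Classical

/-- the final numerical contradiction -/
theorem numeric (a n K M X B P Q : ℝ) (ha : 1 ≤ a) (hn : n = 64 * a ^ 2 * K)
    (hK0 : 0 < K) (hK : a ^ 7 < K ^ 18)
    (hM : n ^ 2 / a - n - 8 * a * n - 2 * (K + 1) * (a * n) ≤ M)
    (hX : K * M ≤ X) (hP1 : K * X - 8 * a ^ 2 * n ≤ P)
    (hP2 : P ^ 2 ≤ (a * n) * (a * (B + P)))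
    (hQ1 : K ^ 2 * B - a ^ 2 * (8 * a * n + 2 * (K ^ 8 / a ^ 3 + 1) * (a * n)) ≤ Q)
    (hQ2 : Q ^ 2 ≤ (a ^ 2 * n) * (a * (a / (K ^ 8 / a ^ 3) * B + Q))) : False := by
  have ha0 : 0 < a := by linarith
  -- consequences of the lower bound for `K`
  have hK8 : a ^ 3 ≤ K ^ 8 := by
    by_contra h
    push Not at h
    have h1 : (K ^ 8) ^ 9 < (a ^ 3) ^ 9 := pow_lt_pow_left₀ h (by positivity) (by norm_num)
    have h2 : (a ^ 7) ^ 4 < (K ^ 18) ^ 4 := pow_lt_pow_left₀ hK (by positivity) (by norm_num)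
    have h3 : a ^ 27 ≤ a ^ 28 := pow_le_pow_right₀ ha (by norm_num)
    have e1 : (K ^ 8) ^ 9 = (K ^ 18) ^ 4 := by ring
    have e2 : (a ^ 3) ^ 9 = a ^ 27 := by ring
    have e3 : (a ^ 7) ^ 4 = a ^ 28 := by ring
    linarith
  have hK3 : a ≤ K ^ 3 := by
    by_contra h
    push Not at h
    have h1 : (K ^ 3) ^ 6 < a ^ 6 := pow_lt_pow_left₀ h (by positivity) (by norm_num)
    have h3 : a ^ 6 ≤ a ^ 7 := pow_le_pow_right₀ ha (by norm_num)
    have e1 : (K ^ 3) ^ 6 = K ^ 18 := by ring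
    linarith
  have hK1 : 1 ≤ K := by
    by_contra h
    push Not at h
    have h1 : K ^ 3 < 1 := pow_lt_one₀ hK0.le h (by norm_num)
    linarith
  -- the number of edges
  have hM' : 2048 * a ^ 3 * K ^ 2 ≤ M := by
    refine le_trans ?_ hM
    have e1 : n ^ 2 / a = 4096 * a ^ 3 * K ^ 2 := by
      rw [hn]; field_simp; ring
    rw [e1, hn]
    have h1 : a ^ 2 * K ≤ a ^ 3 * K ^ 2 := by
      have : 0 ≤ a ^ 2 * K * (a * K - 1) := by
        apply mul_nonneg (by positivity)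
        nlinarith
      nlinarith
    have h2 : a ^ 3 * K ≤ a ^ 3 * K ^ 2 := by
      have : 0 ≤ a ^ 3 * K * (K - 1) := by
        apply mul_nonneg (by positivity)
        linarith
      nlinarith
    nlinarith
  have hX' : 2048 * a ^ 3 * K ^ 3 ≤ X := by
    refine le_trans ?_ hX
    have := mul_le_mul_of_nonneg_left hM' hK0.le
    nlinarith
  have hP' : 1024 * a ^ 3 * K ^ 4 ≤ P := by
    refine le_trans ?_ hP1
    rw [hn]
    have h1 := mul_le_mul_of_nonneg_left hX' hK0.le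
    have h2 : a ^ 4 * K ≤ a ^ 3 * K ^ 4 := by
      have : 0 ≤ a ^ 3 * K * (K ^ 3 - a) := by
        apply mul_nonneg (by positivity)
        linarith
      nlinarith
    have h3 : 0 ≤ a ^ 3 * K ^ 4 := by positivity
    nlinarith
  have hPpos : 0 < P := lt_of_lt_of_le (by positivity) hP'
  -- lower bound for `B`
  have hB : 8192 * a ^ 2 * K ^ 7 ≤ B := by
    rw [hn] at hP2
    -- P^2 ≤ 64 a^4 K (B + P)
    have h1 : P * (1024 * a ^ 3 * K ^ 4) ≤ 64 * a ^ 4 * K * (B + P) := by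
      calc P * (1024 * a ^ 3 * K ^ 4) ≤ P * P := mul_le_mul_of_nonneg_left hP' hPpos.le
        _ = P ^ 2 := by ring
        _ ≤ _ := hP2
        _ = _ := by ring
    have h2 : 16 * K ^ 3 * P ≤ a * (B + P) := by
      have hpos : 0 < 64 * a ^ 3 * K := by positivity
      have : (64 * a ^ 3 * K) * (16 * K ^ 3 * P) ≤ (64 * a ^ 3 * K) * (a * (B + P)) := by
        calc _ = P * (1024 * a ^ 3 * K ^ 4) := by ring
          _ ≤ _ := h1
          _ = _ := by ring
      exact le_of_mul_le_mul_left this hpos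
    have h3 : a * P ≤ K ^ 3 * P := mul_le_mul_of_nonneg_right hK3 hPpos.le
    have h4 : 8 * K ^ 3 * P ≤ a * B := by
      have : 0 ≤ K ^ 3 * P := by positivity
      nlinarith
    have h5 : 8 * K ^ 3 * (1024 * a ^ 3 * K ^ 4) ≤ a * B := by
      refine le_trans ?_ h4
      exact mul_le_mul_of_nonneg_left hP' (by positivity)
    have h6 : a * (8192 * a ^ 2 * K ^ 7) ≤ a * B := by
      calc _ = 8 * K ^ 3 * (1024 * a ^ 3 * K ^ 4) := by ring
        _ ≤ _ := h5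
    exact le_of_mul_le_mul_left h6 ha0
  have hBpos : 0 < B := lt_of_lt_of_le (by positivity) hB
  -- lower bound for `Q`
  have hQ : K ^ 2 * B / 2 ≤ Q := by
    refine le_trans ?_ hQ1
    rw [hn]
    have e1 : a ^ 2 * (8 * a * (64 * a ^ 2 * K) + 2 * (K ^ 8 / a ^ 3 + 1) * (a * (64 * a ^ 2 * K)))
        = 128 * a ^ 2 * K ^ 9 + 640 * a ^ 5 * K := by
      field_simp; ring
    rw [e1]
    have h1 : a ^ 5 * K ≤ a ^ 2 * K ^ 9 := by
      have : 0 ≤ a ^ 2 * K * (K ^ 8 - a ^ 3) := by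
        apply mul_nonneg (by positivity)
        linarith
      nlinarith
    have h2 : K ^ 2 * (8192 * a ^ 2 * K ^ 7) ≤ K ^ 2 * B :=
      mul_le_mul_of_nonneg_left hB (by positivity)
    have h3 : 0 ≤ a ^ 2 * K ^ 9 := by positivity
    nlinarith
  have hQpos : 0 < Q := lt_of_lt_of_le (by positivity) hQ
  have hQ' : 4096 * a ^ 2 * K ^ 9 ≤ Q := by
    have h2 : K ^ 2 * (8192 * a ^ 2 * K ^ 7) ≤ K ^ 2 * B :=
      mul_le_mul_of_nonneg_left hB (by positivity)
    nlinarith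
  -- the final inequality
  rw [hn] at hQ2
  have h1 : 128 * a ^ 5 * K * Q ≤ Q ^ 2 := by
    have : 128 * a ^ 5 * K ≤ Q := by
      refine le_trans ?_ hQ'
      have h1 : a ^ 5 * K ≤ a ^ 2 * K ^ 9 := by
        have : 0 ≤ a ^ 2 * K * (K ^ 8 - a ^ 3) := by
          apply mul_nonneg (by positivity)
          linarith
        nlinarith
      have h3 : 0 ≤ a ^ 2 * K ^ 9 := by positivity
      nlinarith
    nlinarith
  have e2 : (a ^ 2 * (64 * a ^ 2 * K)) * (a * (a / (K ^ 8 / a ^ 3) * B + Q))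
      = 64 * a ^ 9 / K ^ 7 * B + 64 * a ^ 5 * K * Q := by
    field_simp
  rw [e2] at hQ2
  have h2 : Q ^ 2 ≤ 128 * a ^ 9 / K ^ 7 * B := by
    have e3 : 128 * a ^ 9 / K ^ 7 * B = 2 * (64 * a ^ 9 / K ^ 7 * B) := by ring
    rw [e3]
    nlinarith
  have h3 : (K ^ 2 * B / 2) ^ 2 ≤ Q ^ 2 := pow_le_pow_left₀ (by positivity) hQ 2
  have h4 : K ^ 4 * B ^ 2 / 4 ≤ 128 * a ^ 9 / K ^ 7 * B := by
    calc K ^ 4 * B ^ 2 / 4 = (K ^ 2 * B / 2) ^ 2 := by ring
      _ ≤ _ := h3.trans h2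
  have h5 : K ^ 11 * B ≤ 512 * a ^ 9 := by
    have h6 : (4 * K ^ 7) * (K ^ 4 * B ^ 2 / 4) ≤ (4 * K ^ 7) * (128 * a ^ 9 / K ^ 7 * B) :=
      mul_le_mul_of_nonneg_left h4 (by positivity)
    have e5 : (4 * K ^ 7) * (K ^ 4 * B ^ 2 / 4) = (K ^ 11 * B) * B := by ring
    have e6 : (4 * K ^ 7) * (128 * a ^ 9 / K ^ 7 * B) = (512 * a ^ 9) * B := by
      field_simp; ring
    rw [e5, e6] at h6
    exact le_of_mul_le_mul_right h6 hBpos
  have h6 : K ^ 11 * (8192 * a ^ 2 * K ^ 7) ≤ 512 * a ^ 9 :=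
    (mul_le_mul_of_nonneg_left hB (by positivity)).trans h5
  have h7 : 8192 * a ^ 2 * K ^ 18 ≤ 512 * a ^ 2 * a ^ 7 := by
    calc _ = K ^ 11 * (8192 * a ^ 2 * K ^ 7) := by ring
      _ ≤ _ := h6
      _ = _ := by ring
  have h8 : 512 * a ^ 2 * a ^ 7 < 512 * a ^ 2 * K ^ 18 :=
    mul_lt_mul_of_pos_left hK (by positivity)
  have h9 : 0 < a ^ 2 * K ^ 18 := by positivity
  nlinarith

section

variable {V : Type*} [Fintype V]

theorem core (G : SimpleGraph V) (h4 : NoK4 G) (hs : NoSpindle G) (a : ℝ) (ha : 1 ≤ a)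
    (hi : IndLe G a) : (Fintype.card V : ℝ) ^ 18 ≤ 64 ^ 18 * a ^ 43 := by
  by_contra hcon
  push Not at hcon
  have ha0 : 0 < a := by linarith
  set n : ℝ := (Fintype.card V : ℝ) with hn
  have hn0 : 0 < n := by
    by_contra h
    have : n = 0 := le_antisymm (not_lt.1 h) (by positivity)
    rw [this] at hcon
    have : (0 : ℝ) < 64 ^ 18 * a ^ 43 := by positivity
    norm_num at hcon
    linarith
  set K : ℝ := n / (64 * a ^ 2) with hK
  have hK0 : 0 < K := by positivity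
  have hnK : n = 64 * a ^ 2 * K := by rw [hK]; field_simp
  have hK18 : a ^ 7 < K ^ 18 := by
    rw [hK, div_pow, lt_div_iff₀ (by positivity)]
    calc a ^ 7 * (64 * a ^ 2) ^ 18 = 64 ^ 18 * a ^ 43 := by ring
      _ < n ^ 18 := hcon
  obtain ⟨N', hN1, hN2, hN3, hN4⟩ := exists_G' G hs a hi
  have hP : Prime G N' := ⟨fun v u hu => by simpa using hN1 v hu, hN2, hN4⟩
  obtain ⟨N, hC1, hC2, hC3, hC4⟩ := clean G a hi N' hN2 K hK0.le
  have hC : Cl G N' N K := ⟨hC1, hC2, hC4⟩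
  have hL0 : 0 < K ^ 8 / a ^ 3 := by positivity
  obtain ⟨M, hM1, hM2, hM3, hM4⟩ := clean G a hi N' hN2 (K ^ 8 / a ^ 3) hL0.le
  have hM : Cl G N' M (K ^ 8 / a ^ 3) := ⟨hM1, hM2, hM4⟩
  rw [← hn] at hN3 hC3 hM3
  have htri : ∀ (A B C : Finset V), B ⊆ A → C ⊆ B →
      ((A \ C).card : ℝ) = ((A \ B).card : ℝ) + ((B \ C).card : ℝ) := by
    intro A B C hBA hCB
    have h1 : A \ C = (A \ B) ∪ (B \ C) := by
      ext x
      simp only [Finset.mem_sdiff, Finset.mem_union]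
      constructor
      · rintro ⟨hx, hxC⟩
        by_cases hxB : x ∈ B
        · exact Or.inr ⟨hxB, hxC⟩
        · exact Or.inl ⟨hx, hxB⟩
      · rintro (⟨hx, hxB⟩ | ⟨hx, hxC⟩)
        · exact ⟨hx, fun h => hxB (hCB h)⟩
        · exact ⟨hBA hx, hxC⟩
    rw [h1, Finset.card_union_of_disjoint]
    · push_cast; ring
    · rw [Finset.disjoint_left]
      intro x hx hx'
      exact (Finset.mem_sdiff.1 hx).2 (Finset.mem_sdiff.1 hx').1
  -- missing pairs for `M`
  have hmissM : ∑ v, ((univ.filter (G.Adj v) \ M v).card : ℝ)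
      ≤ 8 * a * n + 2 * (K ^ 8 / a ^ 3 + 1) * (a * n) := by
    rw [Finset.sum_congr rfl (fun v _ => htri _ _ _ (hN1 v) (hM1 v)), Finset.sum_add_distrib]
    exact add_le_add hN3 hM3
  have hmissN : ∑ v, ((univ.filter (G.Adj v) \ N v).card : ℝ)
      ≤ 8 * a * n + 2 * (K + 1) * (a * n) := by
    rw [Finset.sum_congr rfl (fun v _ => htri _ _ _ (hN1 v) (hC1 v)), Finset.sum_add_distrib]
    exact add_le_add hN3 hC3
  -- number of edges
  have hT := turan G a hi univ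
  rw [Finset.card_univ, ← hn] at hT
  have hMsum : n ^ 2 / a - n - 8 * a * n - 2 * (K + 1) * (a * n) ≤ ∑ c, ((N c).card : ℝ) := by
    have h1 : n ^ 2 / a ≤ ∑ v, ((univ.filter (G.Adj v)).card : ℝ) + n := by
      rw [div_le_iff₀ ha0, mul_comm]
      exact hT
    have h2 : ∑ v, ((univ.filter (G.Adj v)).card : ℝ)
        = ∑ v, ((univ.filter (G.Adj v) \ N v).card : ℝ) + ∑ v, ((N v).card : ℝ) := by
      rw [← Finset.sum_add_distrib]
      apply Finset.sum_congr rfl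
      intro v _
      have := Finset.card_sdiff_add_card_eq_card ((hC1 v).trans (hN1 v))
      exact_mod_cast this.symm
    linarith
  have hX := x_ge hC
  have hP1 := p_ge h4 hs hi hP hC hN3 ha0.le
  have hP2 := p_le h4 hs hi hC ha0.le
  have hQ1 := q_ge h4 hs hi hK0 hP hC hM hmissM
  have hQ2 := q_le h4 hs hi hL0 hP hC hM ha0.le
  exact numeric a n K _ _ _ _ _ ha hnK hK0 hK18 hMsum hX hP1 hP2 hQ1 hQ2

end

end Run7.h328
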