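import Mathlib
import Pool.Agent.Run7.h328.Core

set_option autoImplicit false
set_option linter.unusedSectionVars false

namespace Run7.h328

open Finset
open scoped Classical

/-- every seven vertices contain three pairwise non-adjacent ones -/
def P73 {V : Type*} (G : SimpleGraph V) : Prop :=
  ∀ s : Finset V, s.card = 7 → ∃ t : Finset V, t ⊆ s ∧ G.IsNIndepSet 3 t

/-- a seven vertex pattern without three independent vertices is not contained in `G` -/
theorem no_seven {V : Type*} {G : SimpleGraph V} (hP : P73 G) (f : Fin 7 → V)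
    (hf : Function.Injective f) (pat : Fin 7 → Fin 7 → Bool)
    (hpat : ∀ t : Finset (Fin 7), t.card = 3 → ∃ i ∈ t, ∃ j ∈ t, pat i j = true)
    (hadj : ∀ i j, pat i j = true → G.Adj (f i) (f j)) : False := by
  obtain ⟨t, hts, ht⟩ := hP (univ.map ⟨f, hf⟩) (by simp)
  let t' : Finset (Fin 7) := univ.filter (fun i => f i ∈ t)
  have hmap : t'.map ⟨f, hf⟩ = t := by
    ext x
    simp only [t', Finset.mem_map, Finset.mem_filter, Finset.mem_univ, true_and,
      Function.Embedding.coeFn_mk]
    constructor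
    · rintro ⟨i, hi, rfl⟩
      exact hi
    · intro hx
      obtain ⟨i, _, hi⟩ := Finset.mem_map.1 (hts hx)
      simp only [Function.Embedding.coeFn_mk] at hi
      exact ⟨i, by rw [hi]; exact hx, hi⟩
  have hcard : t'.card = 3 := by
    rw [← ht.card_eq, ← hmap, Finset.card_map]
  obtain ⟨i, hi, j, hj, hij⟩ := hpat t' hcard
  have h := hadj i j hij
  have hi' : f i ∈ t := (Finset.mem_filter.1 hi).2
  have hj' : f j ∈ t := (Finset.mem_filter.1 hj).2
  exact ht.isIndepSet (by exact_mod_cast hi') (by exact_mod_cast hj') h.ne h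

/-- the spindle as a pattern: `b = 0`, `p = 1`, `q = 2`, `e = 3`, `p' = 4`, `q' = 5`, `e' = 6` -/
def spat (i j : Fin 7) : Bool :=
  (i.val, j.val) ∈ [(0,1),(0,2),(1,2),(3,1),(3,2),(0,4),(0,5),(4,5),(6,4),(6,5),(3,6)]

theorem spat_ok : ∀ t : Finset (Fin 7), t.card = 3 → ∃ i ∈ t, ∃ j ∈ t, spat i j = true := by
  decide +kernel

/-- a complete graph on `0, 1, 2, 3` and a triangle on `4, 5, 6` -/
def kpat (i j : Fin 7) : Bool :=
  (i.val, j.val) ∈ [(0,1),(0,2),(0,3),(1,2),(1,3),(2,3),(4,5),(4,6),(5,6)]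

theorem kpat_ok : ∀ t : Finset (Fin 7), t.card = 3 → ∃ i ∈ t, ∃ j ∈ t, kpat i j = true := by
  decide +kernel

section

variable {V : Type*} [Fintype V] {G : SimpleGraph V}

theorem noSpindle (hP : P73 G) (h4 : NoK4 G) : NoSpindle G := by
  intro b p q e p' q' e' h1 h2 h3 h4a h5 h6 h7 h8 h9 h10 h11 n1 n2 n3 n4 n5 n6
  have hbe : ¬ G.Adj b e := fun h => h4 b e p q h h1 h2 h4a h5 h3
  have hbe' : ¬ G.Adj b e' := fun h => h4 b e' p' q' h h6 h7 h9 h10 h8
  have m1 : e ≠ p' := fun h => hbe (h ▸ h6)
  have m2 : e ≠ q' := fun h => hbe (h ▸ h7)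
  have m3 : e' ≠ p := fun h => hbe' (h ▸ h1)
  have m4 : e' ≠ q := fun h => hbe' (h ▸ h2)
  refine no_seven hP ![b, p, q, e, p', q', e'] ?_ spat spat_ok ?_
  · have k1 := h1.ne
    have k2 := h2.ne
    have k3 := h3.ne
    have k4 := h4a.ne
    have k5 := h5.ne
    have k6 := h6.ne
    have k7 := h7.ne
    have k8 := h8.ne
    have k9 := h9.ne
    have k10 := h10.ne
    have k11 := h11.ne
    intro i j hij
    fin_cases i <;> fin_cases j <;>
      first
        | rfl
        | (exfalso
           simp at hij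
           first
             | exact absurd hij (by assumption)
             | exact absurd hij.symm (by assumption))
  · intro i j hij
    fin_cases i <;> fin_cases j <;>
      first
        | (exact absurd hij (by decide))
        | assumption

theorem triangle_free_off (hP : P73 G) {w x y z : V} (h1 : G.Adj w x) (h2 : G.Adj w y)
    (h3 : G.Adj w z) (h4 : G.Adj x y) (h5 : G.Adj x z) (h6 : G.Adj y z) {p q r : V}
    (hp : p ∉ ({w, x, y, z} : Finset V)) (hq : q ∉ ({w, x, y, z} : Finset V))
    (hr : r ∉ ({w, x, y, z} : Finset V)) (g1 : G.Adj p q) (g2 : G.Adj p r) (g3 : G.Adj q r) :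
    False := by
  simp only [Finset.mem_insert, Finset.mem_singleton, not_or] at hp hq hr
  obtain ⟨a1, a2, a3, a4⟩ := hp
  obtain ⟨b1, b2, b3, b4⟩ := hq
  obtain ⟨c1, c2, c3, c4⟩ := hr
  refine no_seven hP ![w, x, y, z, p, q, r] ?_ kpat kpat_ok ?_
  · have k1 := h1.ne
    have k2 := h2.ne
    have k3 := h3.ne
    have k4 := h4.ne
    have k5 := h5.ne
    have k6 := h6.ne
    have k7 := g1.ne
    have k8 := g2.ne
    have k9 := g3.ne
    intro i j hij
    fin_cases i <;> fin_cases j <;>
      first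
        | rfl
        | (exfalso
           simp at hij
           first
             | exact absurd hij (by assumption)
             | exact absurd hij.symm (by assumption))
  · intro i j hij
    fin_cases i <;> fin_cases j <;>
      first
        | (exact absurd hij (by decide))
        | assumption

/-- graphs with a complete subgraph on four vertices -/
theorem case_k4 (hP : P73 G) (a : ℝ) (ha : 1 ≤ a) (hi : IndLe G a) (h4 : ¬ NoK4 G) :
    (Fintype.card V : ℝ) ≤ 6 * a ^ 2 := by
  unfold NoK4 at h4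
  push Not at h4
  obtain ⟨w, x, y, z, h1, h2, h3, h4, h5, h6, _⟩ := h4
  set T : Finset V := {w, x, y, z} with hT
  have hTc : T.card ≤ 4 := Finset.card_le_four
  set S : Finset V := univ \ T with hS
  have hdeg : ∀ v ∈ S, ((S.filter (G.Adj v)).card : ℝ) ≤ a := by
    intro v hv
    apply hi
    intro p hp q hq hpq
    rw [Finset.mem_filter] at hp hq
    exact triangle_free_off hP h1 h2 h3 h4 h5 h6 (Finset.mem_sdiff.1 hv).2
      (Finset.mem_sdiff.1 hp.1).2 (Finset.mem_sdiff.1 hq.1).2 hp.2 hq.2 hpq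
  have ht := turan G a hi S
  have h7 : ∑ v ∈ S, ((S.filter (G.Adj v)).card : ℝ) ≤ S.card * a := by
    calc _ ≤ ∑ _v ∈ S, a := Finset.sum_le_sum hdeg
      _ = _ := by rw [Finset.sum_const, nsmul_eq_mul]
  have h8 : (S.card : ℝ) ^ 2 ≤ S.card * (a * (a + 1)) := by nlinarith
  have h9 : (S.card : ℝ) ≤ a * (a + 1) := by
    by_cases hz : (S.card : ℝ) = 0
    · rw [hz]; positivity
    · have : (0 : ℝ) < S.card := lt_of_le_of_ne (by positivity) (Ne.symm hz)
      rw [sq] at h8
      exact le_of_mul_le_mul_left h8 this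
  have h10 : Fintype.card V ≤ S.card + 4 := by
    have : (univ : Finset V).card ≤ S.card + T.card := by
      rw [hS]
      have := Finset.card_le_card_sdiff_add_card (s := (univ : Finset V)) (t := T)
      exact this
    rw [Finset.card_univ] at this
    omega
  have h11 : (Fintype.card V : ℝ) ≤ S.card + 4 := by exact_mod_cast h10
  nlinarith

theorem power_bound (hP : P73 G) (a : ℝ) (ha : 1 ≤ a) (hi : IndLe G a) :
    (Fintype.card V : ℝ) ^ 18 ≤ 64 ^ 18 * a ^ 43 := by
  by_cases h4 : NoK4 G
  · exact core G h4 (noSpindle hP h4) a ha hi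
  · have h := case_k4 hP a ha hi h4
    calc (Fintype.card V : ℝ) ^ 18 ≤ (6 * a ^ 2) ^ 18 := pow_le_pow_left₀ (by positivity) h 18
      _ = 6 ^ 18 * a ^ 36 := by ring
      _ ≤ 64 ^ 18 * a ^ 43 := by
        apply mul_le_mul (by norm_num) (pow_le_pow_right₀ ha (by norm_num)) (by positivity)
          (by norm_num)

end

end Run7.h328
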